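import Pool.Agent.TH271.CU.Rank3
import Pool.Agent.Helper270.QA

set_option autoImplicit false

/-!
# The groups `Q(2,3)` and `Q(3,3)` are finite

`H270Q.nielsen n hn` is the Nielsen move `a_1 ↦ a_2 a_1`, `a_i ↦ a_i` (`i ≥ 2`) of the free
group on `a_1, …, a_n` (indexed by `Fin n`, so `a_1 = of 0`, `a_2 = of 1`), and
`H270Q.Q n m hn` is the quotient of `Aut(F_n)` by the normal closure of its `m`-th power.
-/

namespace Pool.Agent.Results.MP_89352f_al.CubesRankThree

open Pool.Agent.TH271.CU Pool.Agent.Helper156.OF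

lemma nielsen_eq (n : ℕ) (hn : 2 ≤ n) : H270Q.nielsen n hn =
    eAut (nv ((⟨0, by omega⟩ : Fin n), true)) (nv ((⟨1, by omega⟩ : Fin n), true)) := by
  apply MulEquiv.toMonoidHom_injective
  ext1 k
  show H270Q.nielsen n hn (FreeGroup.of k) =
    eAut (nv ((⟨0, by omega⟩ : Fin n), true)) (nv ((⟨1, by omega⟩ : Fin n), true))
      (FreeGroup.of k)
  by_cases hk : k = ⟨0, by omega⟩
  · subst hk
    rw [H270Q.nielsen_zero, ← gl_true, ← gl_true,
      eAut_um _ _ (by simp [nv]) ((⟨0, by omega⟩ : Fin n), true)]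
    simp [um, ne_nv]
  · rw [H270Q.nielsen_ne hn k hk, ← gl_true, eAut_fix _ _ _ (by simpa using hk)]

lemma cube_mem (n : ℕ) (hn : 2 ≤ n) :
    eAut ((⟨0, by omega⟩ : Fin n), true) ((⟨1, by omega⟩ : Fin n), true) *
      eAut ((⟨0, by omega⟩ : Fin n), true) ((⟨1, by omega⟩ : Fin n), true) *
      eAut ((⟨0, by omega⟩ : Fin n), true) ((⟨1, by omega⟩ : Fin n), true) ∈
      Subgroup.normalClosure {(H270Q.nielsen n hn) ^ 3} := by
  set N := Subgroup.normalClosure {(H270Q.nielsen n hn) ^ 3} with hNdef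
  have hN : N.Normal := Subgroup.normalClosure_normal
  have h0 : (H270Q.nielsen n hn) ^ 3 ∈ N := Subgroup.subset_normalClosure rfl
  obtain ⟨w, hw1, hw2⟩ := exists_sp2 (x := nv ((⟨0, by omega⟩ : Fin n), true))
    (a := nv ((⟨1, by omega⟩ : Fin n), true)) (y := ((⟨0, by omega⟩ : Fin n), true))
    (b := ((⟨1, by omega⟩ : Fin n), true)) (by simp [nv]) (by simp)
  have h1 := hN.conj_mem _ h0 (toAut w)
  have h2 := rel_aut.e0 w (nv ((⟨0, by omega⟩ : Fin n), true))
    (nv ((⟨1, by omega⟩ : Fin n), true))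
  rw [hw1, hw2, ← nielsen_eq n hn] at h2
  rw [← h2]
  have e : toAut w * (H270Q.nielsen n hn) ^ 3 * (toAut w)⁻¹ =
      toAut w * H270Q.nielsen n hn * (toAut w)⁻¹ * (toAut w * H270Q.nielsen n hn * (toAut w)⁻¹) *
      (toAut w * H270Q.nielsen n hn * (toAut w)⁻¹) := by
    rw [pow_succ, pow_succ, pow_one]; group
  rwa [e] at h1

/-- `Q(2,3)` and `Q(3,3)` are finite. -/
theorem result : Finite (H270Q.Q 2 3 (by norm_num)) ∧ Finite (H270Q.Q 3 3 (by norm_num)) := by
  constructor
  · have hN : (Subgroup.normalClosure {(H270Q.nielsen 2 (by norm_num)) ^ 3}).Normal :=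
      Subgroup.normalClosure_normal
    have h := N0_finiteIndex (N0_le_two hN (i := 0) (j := 1) (by decide)
      (cube_mem 2 (by norm_num)))
    exact Subgroup.finite_quotient_of_finiteIndex
  · have hN : (Subgroup.normalClosure {(H270Q.nielsen 3 (by norm_num)) ^ 3}).Normal :=
      Subgroup.normalClosure_normal
    exact finite_three _ (i := 0) (j := 1) (by decide) (cube_mem 3 (by norm_num))

end Pool.Agent.Results.MP_89352f_al.CubesRankThree
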